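import Pool.Agent.Helper12.MA.StC
import Pool.Agent.Helper12.MA.Lib

/-!
# Project MA (MP_d63854_co), module WIS: a double server gives `W8`
-/

set_option autoImplicit false

namespace Pool.Agent.Helper26.MA

open Pool.Agent.Helper12.MA
open Pool.Agent.Helper51.AJ (IsMinor Planar Apex ExMinor Con Tch con_singleton con_pair tch_symm)
open Pool.Agent.Helper12.NK (rst Kc add cnt Pcy IsFace Cof plus)

private theorem five {V : Type} (S : Set V) (a b c d e : V) (h : ∀ x ∈ S, x = a ∨ x = b ∨ x = c ∨ x = d ∨ x = e)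
    (h5 : 5 ≤ S.ncard) : a ∈ S ∧ b ∈ S ∧ c ∈ S ∧ d ∈ S ∧ e ∈ S := by
  have hsub : S ⊆ ({a, b, c, d, e} : Set V) := by
    intro x hx
    simpa using h x hx
  have h1 : ({a, b, c, d, e} : Set V).ncard ≤ 5 := by
    have e1 := Set.ncard_insert_le a ({b, c, d, e} : Set V)
    have e2 := Set.ncard_insert_le b ({c, d, e} : Set V)
    have e3 := Set.ncard_insert_le c ({d, e} : Set V)
    have e4 := Set.ncard_insert_le d ({e} : Set V)
    have e5 := Set.ncard_singleton e
    omega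
  have h2 := Set.eq_of_subset_of_ncard_le hsub (h1.trans h5) (Set.toFinite _)
  rw [h2]
  simp

/-- the combinatorial core: the adjacency table gives the isomorphism -/
private theorem table {V : Type} (G : SimpleGraph V) (r r' z p q v w w' : V)
    (hall : ∀ c, c = z ∨ c = v ∨ c = p ∨ c = q ∨ c = w ∨ c = w' ∨ c = r ∨ c = r')
    (hne : Function.Injective (![r, r', z, p, q, v, w, w'] : Fin 8 → V))
    (k01 : ¬ G.Adj r r') (k02 : G.Adj r z) (k03 : G.Adj r p) (k04 : G.Adj r q) (k05 : G.Adj r v) (k06 : G.Adj r w)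
    (k07 : G.Adj r w') (k12 : G.Adj r' z) (k13 : G.Adj r' p) (k14 : G.Adj r' q) (k15 : G.Adj r' v) (k16 : G.Adj r' w)
    (k17 : G.Adj r' w') (k23 : G.Adj z p) (k24 : G.Adj z q) (k25 : G.Adj z v) (k26 : ¬ G.Adj z w) (k27 : ¬ G.Adj z w')
    (k34 : G.Adj p q) (k35 : ¬ G.Adj p v) (k36 : G.Adj p w) (k37 : ¬ G.Adj p w') (k45 : ¬ G.Adj q v)
    (k46 : ¬ G.Adj q w) (k47 : G.Adj q w') (k56 : G.Adj v w) (k57 : G.Adj v w') (k67 : G.Adj w w') :
    Nonempty (W8 ≃g G) := by
  have hsur : Function.Surjective (![r, r', z, p, q, v, w, w'] : Fin 8 → V) := by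
    intro c
    rcases hall c with h | h | h | h | h | h | h | h
    · exact ⟨2, h.symm⟩
    · exact ⟨5, h.symm⟩
    · exact ⟨3, h.symm⟩
    · exact ⟨4, h.symm⟩
    · exact ⟨6, h.symm⟩
    · exact ⟨7, h.symm⟩
    · exact ⟨0, h.symm⟩
    · exact ⟨1, h.symm⟩
  have key : ∀ i j : Fin 8, i < j → (G.Adj ((![r, r', z, p, q, v, w, w'] : Fin 8 → V) i)
      ((![r, r', z, p, q, v, w, w'] : Fin 8 → V) j) ↔ W8.Adj i j) := by
    intro i j hij
    fin_cases i <;> fin_cases j <;> first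
      | (exfalso; revert hij; decide)
      | (simp [W8, k01, k02, k03, k04, k05, k06, k07, k12, k13, k14, k15, k16, k17, k23, k24, k25, k26, k27, k34, k35,
          k36, k37, k45, k46, k47, k56, k57, k67]; done)
  refine ⟨⟨Equiv.ofBijective _ ⟨hne, hsur⟩, ?_⟩⟩
  intro i j
  simp only [Equiv.ofBijective_apply]
  rcases lt_trichotomy i j with h | h | h
  · exact key i j h
  · subst h
    simp
  · rw [G.adj_comm, W8.adj_comm]
    exact key j i h

private theorem inj8 {V : Type} (a0 a1 a2 a3 a4 a5 a6 a7 : V)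
    (h01 : a0 ≠ a1) (h02 : a0 ≠ a2) (h03 : a0 ≠ a3) (h04 : a0 ≠ a4) (h05 : a0 ≠ a5) (h06 : a0 ≠ a6) (h07 : a0 ≠ a7)
    (h12 : a1 ≠ a2) (h13 : a1 ≠ a3) (h14 : a1 ≠ a4) (h15 : a1 ≠ a5) (h16 : a1 ≠ a6) (h17 : a1 ≠ a7)
    (h23 : a2 ≠ a3) (h24 : a2 ≠ a4) (h25 : a2 ≠ a5) (h26 : a2 ≠ a6) (h27 : a2 ≠ a7)
    (h34 : a3 ≠ a4) (h35 : a3 ≠ a5) (h36 : a3 ≠ a6) (h37 : a3 ≠ a7)
    (h45 : a4 ≠ a5) (h46 : a4 ≠ a6) (h47 : a4 ≠ a7) (h56 : a5 ≠ a6) (h57 : a5 ≠ a7) (h67 : a6 ≠ a7) :
    Function.Injective (![a0, a1, a2, a3, a4, a5, a6, a7] : Fin 8 → V) := by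
  have key : ∀ i j : Fin 8, i < j → (![a0, a1, a2, a3, a4, a5, a6, a7] : Fin 8 → V) i ≠
      (![a0, a1, a2, a3, a4, a5, a6, a7] : Fin 8 → V) j := by
    intro i j hij
    fin_cases i <;> fin_cases j <;> first
      | (exfalso; revert hij; decide)
      | (simpa using (by assumption))
  intro i j h
  rcases lt_trichotomy i j with h' | h' | h'
  · exact absurd h (key i j h')
  · exact h'
  · exact absurd h.symm (key j i h')

/-- the `K₅` minor which excludes the edge `r r'` -/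
private theorem k5 {V : Type} [Finite V] (H : SimpleGraph V) (hP : Planar H) (r r' z p q w w' : V)
    (hrr : H.Adj r r') (hrz : H.Adj r z) (hsz : H.Adj r' z) (hrp : H.Adj r p) (hsp : H.Adj r' p) (hrq : H.Adj r q)
    (hsq : H.Adj r' q) (hzp : H.Adj z p) (hzq : H.Adj z q) (hpw : H.Adj p w) (hqw : H.Adj q w') (hww : H.Adj w w')
    (n1 : r ≠ w) (n2 : r ≠ w') (n3 : r' ≠ w) (n4 : r' ≠ w') (n5 : z ≠ w) (n6 : z ≠ w') (n7 : p ≠ q) (n8 : p ≠ w')
    (n9 : w ≠ q) : False := by
  refine (nMNR V H hP).1 ![{r}, {r'}, {z}, {p, w}, {q, w'}] ?_ ?_ ?_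
  · intro i
    fin_cases i
    · exact con_singleton H r
    · exact con_singleton H r'
    · exact con_singleton H z
    · exact con_pair hpw
    · exact con_pair hqw
  · have key : ∀ i j : Fin 5, i < j → Disjoint ((![{r}, {r'}, {z}, {p, w}, {q, w'}] : Fin 5 → Set V) i)
        ((![{r}, {r'}, {z}, {p, w}, {q, w'}] : Fin 5 → Set V) j) := by
      have e1 := hrr.ne
      have e2 := hrz.ne
      have e3 := hsz.ne
      have e4 := hrp.ne
      have e5 := hsp.ne
      have e6 := hrq.ne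
      have e7 := hsq.ne
      have e8 := hzp.ne
      have e9 := hzq.ne
      have e10 := hww.ne
      intro i j hij
      fin_cases i <;> fin_cases j <;> first
        | (exfalso; revert hij; decide)
        | (simp; tauto)
    intro i j hij
    rcases lt_or_gt_of_ne hij with h | h
    · exact key i j h
    · exact (key j i h).symm
  · have key : ∀ i j : Fin 5, i < j → Tch H ((![{r}, {r'}, {z}, {p, w}, {q, w'}] : Fin 5 → Set V) i)
        ((![{r}, {r'}, {z}, {p, w}, {q, w'}] : Fin 5 → Set V) j) := by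
      intro i j hij
      fin_cases i <;> fin_cases j <;> first
        | (exfalso; revert hij; decide)
        | skip
      · exact ⟨r, rfl, r', rfl, hrr⟩
      · exact ⟨r, rfl, z, rfl, hrz⟩
      · exact ⟨r, rfl, p, Or.inl rfl, hrp⟩
      · exact ⟨r, rfl, q, Or.inl rfl, hrq⟩
      · exact ⟨r', rfl, z, rfl, hsz⟩
      · exact ⟨r', rfl, p, Or.inl rfl, hsp⟩
      · exact ⟨r', rfl, q, Or.inl rfl, hsq⟩
      · exact ⟨z, rfl, p, Or.inl rfl, hzp⟩
      · exact ⟨z, rfl, q, Or.inl rfl, hzq⟩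
      · exact ⟨w, Or.inr rfl, w', Or.inr rfl, hww⟩
    intro i j hij
    rcases lt_or_gt_of_ne hij with h | h
    · exact key i j h
    · exact tch_symm (key j i h)

/-- the situation with `{s, s'} = {r, r'}` already used -/
private theorem core {V : Type} [Finite V] (G : SimpleGraph V) (z v p q r r' w w' : V) (hB : StBAS) (bh : Bh G)
    (ds : DSc G z v p q r r')
    (hv : ∀ a, G.Adj v a ↔ a = z ∨ a = w ∨ a = w' ∨ a = r ∨ a = r')
    (hww : G.Adj w w') (wp : w ≠ p) (wz : w ≠ z) (wv : w ≠ v) (w'q : w' ≠ q) (w'z : w' ≠ z) (w'v : w' ≠ v)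
    (wq : w ≠ q) (w'p : w' ≠ p) (wr : w ≠ r) (wr' : w ≠ r') (w'r : w' ≠ r) (w'r' : w' ≠ r')
    (hpw' : ¬ G.Adj p w') (hqw : ¬ G.Adj q w)
    (hall : ∀ c, c = z ∨ c = v ∨ c = p ∨ c = q ∨ c = w ∨ c = w' ∨ c = r ∨ c = r') : Nonempty (W8 ≃g G) := by
  obtain ⟨vp, vq, vr, vr', pq, pr, pr', qr, qr', rr'⟩ := ds.ne
  have azv : G.Adj z v := (ds.nb v).2 (by tauto)
  have azp : G.Adj z p := (ds.nb p).2 (by tauto)
  have azq : G.Adj z q := (ds.nb q).2 (by tauto)
  have azr : G.Adj z r := (ds.nb r).2 (by tauto)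
  have azr' : G.Adj z r' := (ds.nb r').2 (by tauto)
  have zv := azv.ne
  have zp := azp.ne
  have zq := azq.ne
  have zr := azr.ne
  have zr' := azr'.ne
  have hzw : ¬ G.Adj z w := fun h => by
    rcases (ds.nb w).1 h with h | h | h | h | h
    · exact wv h
    · exact wp h
    · exact wq h
    · exact wr h
    · exact wr' h
  have hzw' : ¬ G.Adj z w' := fun h => by
    rcases (ds.nb w').1 h with h | h | h | h | h
    · exact w'v h
    · exact w'p h
    · exact w'q h
    · exact w'r h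
    · exact w'r' h
  have hvp : ¬ G.Adj v p := fun h => by
    rcases (hv p).1 h with h | h | h | h | h
    · exact zp h.symm
    · exact wp h.symm
    · exact w'p h.symm
    · exact pr h
    · exact pr' h
  have hvq : ¬ G.Adj v q := fun h => by
    rcases (hv q).1 h with h | h | h | h | h
    · exact zq h.symm
    · exact wq h.symm
    · exact w'q h.symm
    · exact qr h
    · exact qr' h
  have avw : G.Adj v w := (hv w).2 (by tauto)
  have avw' : G.Adj v w' := (hv w').2 (by tauto)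
  have avr : G.Adj v r := (hv r).2 (by tauto)
  have avr' : G.Adj v r' := (hv r').2 (by tauto)
  have deg := (hB V G bh).2.2.2.1
  obtain ⟨-, -, apw, apr, apr'⟩ := five {a | G.Adj p a} z q w r r' (by
    intro x hx
    have hx : G.Adj p x := hx
    rcases hall x with h | h | h | h | h | h | h | h
    · exact Or.inl h
    · exact absurd (h ▸ hx : G.Adj p v).symm hvp
    · exact absurd h hx.ne'
    · exact Or.inr (Or.inl h)
    · exact Or.inr (Or.inr (Or.inl h))
    · exact absurd (h ▸ hx : G.Adj p w') hpw'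
    · exact Or.inr (Or.inr (Or.inr (Or.inl h)))
    · exact Or.inr (Or.inr (Or.inr (Or.inr h)))) (deg p)
  obtain ⟨-, -, aqw', aqr, aqr'⟩ := five {a | G.Adj q a} z p w' r r' (by
    intro x hx
    have hx : G.Adj q x := hx
    rcases hall x with h | h | h | h | h | h | h | h
    · exact Or.inl h
    · exact absurd (h ▸ hx : G.Adj q v).symm hvq
    · exact Or.inr (Or.inl h)
    · exact absurd h hx.ne'
    · exact absurd (h ▸ hx : G.Adj q w) hqw
    · exact Or.inr (Or.inr (Or.inl h))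
    · exact Or.inr (Or.inr (Or.inr (Or.inl h)))
    · exact Or.inr (Or.inr (Or.inr (Or.inr h)))) (deg q)
  obtain ⟨-, -, -, awr, awr'⟩ := five {a | G.Adj w a} v w' p r r' (by
    intro x hx
    have hx : G.Adj w x := hx
    rcases hall x with h | h | h | h | h | h | h | h
    · exact absurd (h ▸ hx : G.Adj w z).symm hzw
    · exact Or.inl h
    · exact Or.inr (Or.inr (Or.inl h))
    · exact absurd (h ▸ hx : G.Adj w q).symm hqw
    · exact absurd h hx.ne'
    · exact Or.inr (Or.inl h)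
    · exact Or.inr (Or.inr (Or.inr (Or.inl h)))
    · exact Or.inr (Or.inr (Or.inr (Or.inr h)))) (deg w)
  obtain ⟨-, -, -, aw'r, aw'r'⟩ := five {a | G.Adj w' a} v w q r r' (by
    intro x hx
    have hx : G.Adj w' x := hx
    rcases hall x with h | h | h | h | h | h | h | h
    · exact absurd (h ▸ hx : G.Adj w' z).symm hzw'
    · exact Or.inl h
    · exact absurd (h ▸ hx : G.Adj w' p).symm hpw'
    · exact Or.inr (Or.inr (Or.inl h))
    · exact Or.inr (Or.inl h)
    · exact absurd h hx.ne'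
    · exact Or.inr (Or.inr (Or.inr (Or.inl h)))
    · exact Or.inr (Or.inr (Or.inr (Or.inr h)))) (deg w')
  have apw : G.Adj p w := apw
  have apr : G.Adj p r := apr
  have apr' : G.Adj p r' := apr'
  have aqw' : G.Adj q w' := aqw'
  have aqr : G.Adj q r := aqr
  have aqr' : G.Adj q r' := aqr'
  have awr : G.Adj w r := awr
  have awr' : G.Adj w r' := awr'
  have aw'r : G.Adj w' r := aw'r
  have aw'r' : G.Adj w' r' := aw'r'
  have hP : ∀ a b, G.Adj a b → a ≠ v → b ≠ v → (a ≠ p ∨ b ≠ q) → (a ≠ q ∨ b ≠ p) → (rst (dl G p q) {v}ᶜ).Adj a b := by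
    intro a b hab ha hb h1 h2
    exact ⟨⟨hab, by tauto, by tauto⟩, ha, hb⟩
  have nrr : ¬ G.Adj r r' := by
    intro hrr
    refine k5 (rst (dl G p q) {v}ᶜ) ds.pl r r' z p q w w' ?_ ?_ ?_ ?_ ?_ ?_ ?_ ?_ ?_ ?_ ?_ ?_ wr.symm w'r.symm
      wr'.symm w'r'.symm wz.symm w'z.symm pq w'p.symm wq
    · exact hP _ _ hrr vr.symm vr'.symm (Or.inl pr.symm) (Or.inl qr.symm)
    · exact hP _ _ azr.symm vr.symm zv (Or.inl pr.symm) (Or.inl qr.symm)
    · exact hP _ _ azr'.symm vr'.symm zv (Or.inl pr'.symm) (Or.inl qr'.symm)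
    · exact hP _ _ apr.symm vr.symm vp.symm (Or.inl pr.symm) (Or.inl qr.symm)
    · exact hP _ _ apr'.symm vr'.symm vp.symm (Or.inl pr'.symm) (Or.inl qr'.symm)
    · exact hP _ _ aqr.symm vr.symm vq.symm (Or.inl pr.symm) (Or.inl qr.symm)
    · exact hP _ _ aqr'.symm vr'.symm vq.symm (Or.inl pr'.symm) (Or.inl qr'.symm)
    · exact hP _ _ azp zv vp.symm (Or.inl zp) (Or.inl zq)
    · exact hP _ _ azq zv vq.symm (Or.inl zp) (Or.inl zq)
    · exact hP _ _ apw vp.symm wv (Or.inr wq) (Or.inl pq)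
    · exact hP _ _ aqw' vq.symm w'v (Or.inl pq.symm) (Or.inr w'p)
    · exact hP _ _ hww wv w'v (Or.inl wp) (Or.inl wq)
  exact table G r r' z p q v w w' hall
    (inj8 r r' z p q v w w' rr' zr.symm pr.symm qr.symm vr.symm wr.symm w'r.symm zr'.symm pr'.symm qr'.symm vr'.symm
      wr'.symm w'r'.symm zp zq zv wz.symm w'z.symm pq vp.symm wp.symm w'p.symm vq.symm wq.symm w'q.symm wv.symm
      w'v.symm hww.ne)
    nrr azr.symm apr.symm aqr.symm avr.symm awr.symm aw'r.symm azr'.symm apr'.symm aqr'.symm avr'.symm awr'.symm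
    aw'r'.symm azp azq azv hzw hzw' ds.pq (fun h => hvp h.symm) apw hpw' (fun h => hvq h.symm) hqw aqw' avw avw' hww

/-- module WIS -/
theorem hWIS (hBAS : StBAS) (hCFG : StCFG) (hWST : StWST) (hWEM : StWEM) : StWIS := by
  intro V _ G z v p q r r' bh ds
  obtain ⟨f1, f2, f3, f4, cf⟩ := hCFG V G z v p q r r' bh ds
  obtain ⟨w, w', s, s', F₁, F₂, hv, hwne, hsne, hww, i1, i2, hF, z1, z2, a1, a2, a3, a4, a5, a6, p1, q1, p2, q2, hp, hq,
    npw', nqw⟩ := hWST V G z v p q r r' f1 f2 f3 f4 cf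
  have hall := hWEM V G z v p q r r' f1 f2 f3 f4 cf w w' s s' F₁ F₂ hv hwne hsne hww i1 i2 hF z1 z2 a1 a2 a3 a4 a5 a6
    p1 q1 p2 q2 hp hq npw' nqw
  obtain ⟨wp, wz, wv, cpw⟩ := hp w (by simp)
  obtain ⟨sp, sz, sv, cps⟩ := hp s (by simp)
  obtain ⟨s'p, s'z, s'v, cps'⟩ := hp s' (by simp)
  obtain ⟨w'q, w'z, w'v, cqw'⟩ := hq w' (by simp)
  obtain ⟨sq, -, -, cqs⟩ := hq s (by simp)
  obtain ⟨s'q, -, -, cqs'⟩ := hq s' (by simp)
  have wq : w ≠ q := by
    rintro rfl
    exact nqw ⟨f2, cf.i2, cf.q2, cf.q2⟩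
  have w'p : w' ≠ p := by
    rintro rfl
    exact npw' ⟨f1, cf.i1, cf.p1, cf.p1⟩
  have ws : w ≠ s := by
    rintro rfl
    exact nqw cqs
  have ws' : w ≠ s' := by
    rintro rfl
    exact nqw cqs'
  have w's : w' ≠ s := by
    rintro rfl
    exact npw' cps
  have w's' : w' ≠ s' := by
    rintro rfl
    exact npw' cps'
  have wr : w ≠ r := by
    rintro rfl
    exact nqw ⟨f2, cf.i2, cf.q2, cf.r2⟩
  have wr' : w ≠ r' := by
    rintro rfl
    exact nqw ⟨f3, cf.i3, cf.q3, cf.s3⟩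
  have w'r : w' ≠ r := by
    rintro rfl
    exact npw' ⟨f1, cf.i1, cf.p1, cf.r1⟩
  have w'r' : w' ≠ r' := by
    rintro rfl
    exact npw' ⟨f4, cf.i4, cf.p4, cf.s4⟩
  obtain ⟨vp, vq, vr, vr', pq, pr, pr', qr, qr', rr'⟩ := ds.ne
  have zr : z ≠ r := ((ds.nb r).2 (by tauto)).ne
  have zr' : z ≠ r' := ((ds.nb r').2 (by tauto)).ne
  have hr : r = s ∨ r = s' := by
    rcases hall r with h | h | h | h | h | h | h | h
    · exact absurd h.symm zr
    · exact absurd h.symm vr
    · exact absurd h.symm pr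
    · exact absurd h.symm qr
    · exact absurd h.symm wr
    · exact absurd h.symm w'r
    · exact Or.inl h
    · exact Or.inr h
  have hr' : r' = s ∨ r' = s' := by
    rcases hall r' with h | h | h | h | h | h | h | h
    · exact absurd h.symm zr'
    · exact absurd h.symm vr'
    · exact absurd h.symm pr'
    · exact absurd h.symm qr'
    · exact absurd h.symm wr'
    · exact absurd h.symm w'r'
    · exact Or.inl h
    · exact Or.inr h
  -- adjacent vertices of the planar graph are cofacial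
  have hK : Kc 3 (dl G p q) {v}ᶜ := (hBAS V G bh).2.2.2.2.1 v p q
  have edf : ∀ a b, (dl G p q).Adj a b → a ≠ v → b ≠ v → Cof (dl G p q) {v}ᶜ a b := by
    intro a b hab ha hb
    obtain ⟨F, -, hF, -, -, haF, hbF, -, -⟩ := nEDF V (dl G p q) {v}ᶜ a b hK ds.pl ha hb hab
    exact ⟨F, hF, haF, hbF⟩
  have hpw' : ¬ G.Adj p w' := by
    intro h
    refine npw' (edf p w' ⟨h, ?_, ?_⟩ vp.symm w'v)
    · rintro ⟨-, h'⟩
      exact w'q h'
    · rintro ⟨h', -⟩
      exact pq h'
  have hqw : ¬ G.Adj q w := by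
    intro h
    refine nqw (edf q w ⟨h, ?_, ?_⟩ vq.symm wv)
    · rintro ⟨h', -⟩
      exact pq h'.symm
    · rintro ⟨-, h'⟩
      exact wp h'
  rcases hr with h | h <;> rcases hr' with h' | h'
  · exact absurd (h.trans h'.symm) rr'
  · subst h
    subst h'
    exact core G z v p q r r' w w' hBAS bh ds hv hww wp wz wv w'q w'z w'v wq w'p wr wr' w'r w'r' hpw' hqw hall
  · subst h
    subst h'
    refine core G z v p q r r' w w' hBAS bh ds ?_ hww wp wz wv w'q w'z w'v wq w'p wr wr' w'r w'r' hpw' hqw ?_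
    · intro a
      rw [hv a]
      tauto
    · intro c
      have := hall c
      tauto
  · exact absurd (h.trans h'.symm) rr'

end Pool.Agent.Helper26.MA
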